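import Mathlib

/-!
# TANK G, bridge B → C: ALPHA

If `∑_{i < T} dim R / (J + m ^ i) < (n + 7) T ^ n` for `T = T₀ n` large, then there is a form
`α ≠ 0` of degree `d < T` with `α(y) ∈ J + m ^ (d + 1)`, for every `y : Fin n → m`.
-/

set_option autoImplicit false

namespace Pool.Agent.TGBC74

open MvPolynomial Module

variable {k : Type*} [Field k] {R : Type*} [CommRing R] [Algebra k R] {n : ℕ}

/-- A form of degree `d` in elements of `m` is in `m ^ d`. -/
theorem aeval_mem_pow (m : Ideal R) {y : Fin n → R} (hy : ∀ i, y i ∈ m) {d : ℕ}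
    {φ : MvPolynomial (Fin n) k} (hφ : φ.IsHomogeneous d) : aeval y φ ∈ m ^ d := by
  classical
  rw [φ.as_sum, map_sum]
  refine Ideal.sum_mem _ fun α hα => ?_
  have h1 : ∑ i, α i = d := by
    have h2 := hφ (mem_support_iff.1 hα)
    rw [← h2, Finsupp.weight_apply, Finsupp.sum_fintype]
    · simp
    · simp
  rw [aeval_monomial, Finsupp.prod_fintype]
  · refine Ideal.mul_mem_left _ _ ?_
    rw [← h1, ← Finset.prod_pow_eq_pow_sum]
    exact Ideal.prod_mem_prod fun i _ => Ideal.pow_mem_pow (hy i) _
  · intro i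
    exact pow_zero _

/-- The lowest form of a polynomial. -/
theorem exists_lowest (m : Ideal R) {y : Fin n → R} (hy : ∀ i, y i ∈ m)
    {p : MvPolynomial (Fin n) k} (hp : p ≠ 0) : ∃ d ≤ p.totalDegree,
      ∃ α : MvPolynomial (Fin n) k, α ≠ 0 ∧ α.IsHomogeneous d ∧
        aeval y p - aeval y α ∈ m ^ (d + 1) := by
  classical
  have hex : ∃ d, homogeneousComponent d p ≠ 0 := by
    by_contra h
    push Not at h
    apply hp
    rw [← sum_homogeneousComponent p]
    exact Finset.sum_eq_zero fun i _ => h i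
  set d := Nat.find hex with hd
  have hd0 : homogeneousComponent d p ≠ 0 := Nat.find_spec hex
  have hdle : d ≤ p.totalDegree := by
    by_contra h
    push Not at h
    exact hd0 (homogeneousComponent_eq_zero d p h)
  refine ⟨d, hdle, homogeneousComponent d p, hd0, homogeneousComponent_isHomogeneous d p, ?_⟩
  have h1 : aeval y p = ∑ i ∈ Finset.range (p.totalDegree + 1),
      aeval y (homogeneousComponent i p) := by
    conv_lhs => rw [← sum_homogeneousComponent p]
    rw [map_sum]
  rw [h1, ← Finset.sum_erase_add _ _ (Finset.mem_range.2 (Nat.lt_succ_of_le hdle)),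
    add_sub_cancel_right]
  refine Ideal.sum_mem _ fun i hi => ?_
  obtain ⟨hne, -⟩ := Finset.mem_erase.1 hi
  rcases lt_or_gt_of_ne hne with h | h
  · have h2 : homogeneousComponent i p = 0 := by
      by_contra hc
      exact Nat.find_min hex h hc
    rw [h2, map_zero]
    exact Ideal.zero_mem _
  · exact Ideal.pow_le_pow_right h (aeval_mem_pow m hy (homogeneousComponent_isHomogeneous i p))

/-- If the residue ring is small there is a relation. -/
theorem exists_rel (I : Ideal R) [Module.Finite k (R ⧸ I)] (y : Fin n → R) (b : ℕ)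
    (h : finrank k (R ⧸ I) < (b + 1) ^ n) : ∃ p : MvPolynomial (Fin n) k, p ≠ 0 ∧
      p.totalDegree ≤ n * b ∧ aeval y p ∈ I := by
  classical
  let ex : (Fin n → Fin (b + 1)) → (Fin n →₀ ℕ) := fun β =>
    Finsupp.equivFunOnFinite.symm fun i => (β i : ℕ)
  have hex : Function.Injective ex := by
    intro β β' h
    have h1 := Finsupp.equivFunOnFinite.symm.injective h
    funext i
    exact Fin.ext (congrFun h1 i)
  have hdep : ¬ LinearIndependent k fun β : Fin n → Fin (b + 1) =>
      Ideal.Quotient.mk I (aeval y (monomial (ex β) (1 : k))) := by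
    intro hc
    have h2 := hc.fintype_card_le_finrank
    rw [Fintype.card_fun, Fintype.card_fin, Fintype.card_fin] at h2
    omega
  rw [Fintype.not_linearIndependent_iff] at hdep
  obtain ⟨c, hc, β₀, hβ₀⟩ := hdep
  refine ⟨∑ β, monomial (ex β) (c β), ?_, ?_, ?_⟩
  · intro h0
    have h1 := congrArg (coeff (ex β₀)) h0
    rw [coeff_sum, coeff_zero, Finset.sum_eq_single β₀] at h1
    · rw [coeff_monomial, if_pos rfl] at h1
      exact hβ₀ h1
    · intro β _ hne
      rw [coeff_monomial, if_neg fun he => hne (hex he)]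
    · intro hh
      exact absurd (Finset.mem_univ _) hh
  · refine totalDegree_finsetSum_le fun β _ => ?_
    refine (totalDegree_monomial_le _ _).trans ?_
    rw [Finsupp.sum_fintype]
    · calc ∑ i, (ex β) i ≤ ∑ _i : Fin n, b :=
          Finset.sum_le_sum fun i _ => Nat.lt_succ_iff.1 (β i).2
        _ = n * b := by simp
    · intro i; rfl
  · rw [← Ideal.Quotient.eq_zero_iff_mem, map_sum, map_sum, ← hc]
    refine Finset.sum_congr rfl fun β _ => ?_
    have h1 : monomial (ex β) (c β) = c β • monomial (ex β) (1 : k) := by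
      rw [smul_monomial, smul_eq_mul, mul_one]
    rw [h1, map_smul]
    rfl

/-- The level. -/
def T₀ (n : ℕ) : ℕ := 2 * ((n + 7) * (2 * n) ^ n)

theorem T₀_pos (n : ℕ) : 0 < T₀ n := by
  unfold T₀
  rcases Nat.eq_zero_or_pos n with rfl | h
  · norm_num
  · positivity

/-- Numerics. -/
theorem level_sum (n : ℕ) (f : ℕ → ℕ)
    (hf : ∀ i < T₀ n, 1 ≤ i → ((i - 1) / n + 1) ^ n ≤ f i) :
    (n + 7) * T₀ n ^ n ≤ ∑ i ∈ Finset.range (T₀ n), f i := by
  set s := (n + 7) * (2 * n) ^ n with hs
  have hT : T₀ n = 2 * s := rfl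
  have hs0 : 0 < s := by
    have := T₀_pos n
    omega
  have h1 : ∑ i ∈ Finset.Ico s (2 * s), f i ≤ ∑ i ∈ Finset.range (T₀ n), f i := by
    refine Finset.sum_le_sum_of_subset fun i hi => ?_
    rw [Finset.mem_range, hT]
    exact (Finset.mem_Ico.1 hi).2
  refine le_trans ?_ h1
  have h2 : ∀ i ∈ Finset.Ico s (2 * s), ((s - 1) / n + 1) ^ n ≤ f i := by
    intro i hi
    obtain ⟨hi1, hi2⟩ := Finset.mem_Ico.1 hi
    refine le_trans ?_ (hf i (by rw [hT]; exact hi2) (by omega))
    gcongr
  have h3 := Finset.card_nsmul_le_sum (Finset.Ico s (2 * s)) f _ h2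
  rw [Nat.card_Ico, smul_eq_mul, show 2 * s - s = s by omega] at h3
  refine le_trans ?_ h3
  -- `(n + 7) (2 s)^n ≤ s ((s - 1) / n + 1)^n`
  have h4 : s ≤ n * ((s - 1) / n + 1) ∨ n = 0 := by
    rcases Nat.eq_zero_or_pos n with h0 | h0
    · exact Or.inr h0
    · left
      have h5 := Nat.div_add_mod (s - 1) n
      have h6 := Nat.mod_lt (s - 1) h0
      have h7 : n * ((s - 1) / n + 1) = n * ((s - 1) / n) + n := by ring
      omega
  rcases h4 with h4 | h4
  · have h5 : s ^ n ≤ n ^ n * ((s - 1) / n + 1) ^ n := by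
      rw [← mul_pow]
      exact Nat.pow_le_pow_left h4 n
    calc (n + 7) * T₀ n ^ n = (n + 7) * (2 ^ n * s ^ n) := by rw [hT, mul_pow]
      _ ≤ (n + 7) * (2 ^ n * (n ^ n * ((s - 1) / n + 1) ^ n)) := by gcongr
      _ = ((n + 7) * (2 * n) ^ n) * ((s - 1) / n + 1) ^ n := by
          rw [mul_pow]
          ring
      _ = s * ((s - 1) / n + 1) ^ n := by rw [← hs]
  · subst h4
    simp [T₀, hs]

/-- **ALPHA**. -/
theorem exists_alpha (m J : Ideal R) (y : Fin n → R) (hy : ∀ i, y i ∈ m)
    (hfin : ∀ i, Module.Finite k (R ⧸ (J ⊔ m ^ i)))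
    (hB : ∑ i ∈ Finset.range (T₀ n), finrank k (R ⧸ (J ⊔ m ^ i)) < (n + 7) * T₀ n ^ n) :
    ∃ d < T₀ n, ∃ α : MvPolynomial (Fin n) k, α ≠ 0 ∧ α.IsHomogeneous d ∧
      ∃ a ∈ J, a - aeval y α ∈ m ^ (d + 1) := by
  classical
  by_contra hcon
  refine absurd (level_sum n (fun i => finrank k (R ⧸ (J ⊔ m ^ i))) ?_) (not_le.2 hB)
  intro i hi hi1
  by_contra hlt
  push Not at hlt
  obtain ⟨p, hp, hdeg, hpI⟩ := exists_rel (J ⊔ m ^ i) y ((i - 1) / n) hlt
  have hdeg' : p.totalDegree < i := by
    have h1 : n * ((i - 1) / n) ≤ i - 1 := Nat.mul_div_le (i - 1) n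
    omega
  obtain ⟨d, hd, α, hα0, hα, hαm⟩ := exists_lowest m hy hp
  obtain ⟨a, ha, e, he, hae⟩ := Submodule.mem_sup.1 hpI
  apply hcon
  refine ⟨d, by omega, α, hα0, hα, a, ha, ?_⟩
  have h1 : a - aeval y α = (aeval y p - aeval y α) - e := by
    rw [← hae]; ring
  rw [h1]
  exact Ideal.sub_mem _ hαm (Ideal.pow_le_pow_right (by omega) he)

/-- A form does not vanish at a suitable vector. -/
theorem exists_eval_ne [Infinite k] {α : MvPolynomial (Fin n) k} (hα : α ≠ 0) :
    ∃ β : Fin n → k, eval β α ≠ 0 := by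
  by_contra h
  push Not at h
  exact hα (MvPolynomial.funext fun β => by rw [h β, map_zero])

/-- The coefficient of `X ^ d` in a form of degree `d`. -/
theorem eval_single {φ : MvPolynomial (Fin n) k} {d : ℕ} (hφ : φ.IsHomogeneous d) (i₀ : Fin n) :
    eval (Pi.single i₀ (1 : k)) φ = coeff (Finsupp.single i₀ d) φ := by
  classical
  rw [eval_eq']
  by_cases h : Finsupp.single i₀ d ∈ φ.support
  · rw [Finset.sum_eq_single (Finsupp.single i₀ d)]
    · have h1 : ∏ i, (Pi.single i₀ (1 : k) : Fin n → k) i ^ (Finsupp.single i₀ d) i = 1 := by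
        refine Finset.prod_eq_one fun i _ => ?_
        by_cases hi : i = i₀
        · subst hi
          rw [Pi.single_eq_same, one_pow]
        · rw [Finsupp.single_eq_of_ne hi, pow_zero]
      rw [h1, mul_one]
    · intro β hβ hne
      have h1 : ∃ i, i ≠ i₀ ∧ β i ≠ 0 := by
        by_contra hc
        push Not at hc
        apply hne
        have h2 : ∑ i, β i = d := by
          have h3 := hφ (mem_support_iff.1 hβ)
          rw [← h3, Finsupp.weight_apply, Finsupp.sum_fintype]
          · simp
          · simp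
        ext i
        by_cases hi : i = i₀
        · subst hi
          rw [Finsupp.single_eq_same, ← h2]
          exact (Finset.sum_eq_single i (fun j _ hj => hc j hj) (by simp)).symm
        · rw [Finsupp.single_eq_of_ne hi]
          exact hc i hi
      obtain ⟨i, hi, hi0⟩ := h1
      rw [Finset.prod_eq_zero (Finset.mem_univ i), mul_zero]
      rw [Pi.single_eq_of_ne hi, zero_pow hi0]
    · intro hh
      exact absurd h hh
  · rw [notMem_support_iff.1 h]
    refine Finset.sum_eq_zero fun β hβ => ?_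
    have h1 : ∃ i, i ≠ i₀ ∧ β i ≠ 0 := by
      by_contra hc
      push Not at hc
      apply h
      have h2 : ∑ i, β i = d := by
        have h3 := hφ (mem_support_iff.1 hβ)
        rw [← h3, Finsupp.weight_apply, Finsupp.sum_fintype]
        · simp
        · simp
      have h4 : β = Finsupp.single i₀ d := by
        ext i
        by_cases hi : i = i₀
        · subst hi
          rw [Finsupp.single_eq_same, ← h2]
          exact (Finset.sum_eq_single i (fun j _ hj => hc j hj) (by simp)).symm
        · rw [Finsupp.single_eq_of_ne hi]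
          exact hc i hi
      rw [← h4]
      exact hβ
    obtain ⟨i, hi, hi0⟩ := h1
    rw [Finset.prod_eq_zero (Finset.mem_univ i), mul_zero]
    rw [Pi.single_eq_of_ne hi, zero_pow hi0]

/-- **BC2**: ALPHA for two ideals after one linear change of the `u`'s. -/
theorem exists_alpha_gl [Infinite k] (i₀ : Fin n) (m : Ideal R) (J : Bool → Ideal R)
    (u : Fin n → R) (hu : ∀ i, u i ∈ m) (hfin : ∀ l i, Module.Finite k (R ⧸ (J l ⊔ m ^ i)))
    (hB : ∀ l, ∑ i ∈ Finset.range (T₀ n), finrank k (R ⧸ (J l ⊔ m ^ i)) <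
      (n + 7) * T₀ n ^ n) :
    ∃ A : Matrix (Fin n) (Fin n) k, A.det ≠ 0 ∧ ∀ l, ∃ b < T₀ n,
      ∃ α : MvPolynomial (Fin n) k, α.IsHomogeneous b ∧ coeff (Finsupp.single i₀ b) α ≠ 0 ∧
        ∃ a ∈ J l, a - aeval (fun i => ∑ j, algebraMap k R (A i j) * u j) α ∈ m ^ (b + 1) := by
  classical
  have h := fun l => exists_alpha m (J l) u hu (hfin l) (hB l)
  choose d hd α hα0 hα a ha hαm using h
  obtain ⟨β, hβ⟩ := exists_eval_ne (k := k) (n := n) (α := α true * α false * X i₀)
    (mul_ne_zero (mul_ne_zero (hα0 _) (hα0 _)) (X_ne_zero i₀))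
  rw [map_mul, map_mul, eval_X] at hβ
  have hβ0 : β i₀ ≠ 0 := right_ne_zero_of_mul hβ
  have hβα : ∀ l, eval β (α l) ≠ 0 := by
    intro l
    cases l
    · exact right_ne_zero_of_mul (left_ne_zero_of_mul hβ)
    · exact left_ne_zero_of_mul (left_ne_zero_of_mul hβ)
  set B : Matrix (Fin n) (Fin n) k := (1 : Matrix (Fin n) (Fin n) k).updateCol i₀ β with hB'
  have hdet : B.det ≠ 0 := by
    rw [hB', ← Matrix.cramer_apply, Matrix.cramer_one]
    exact hβ0
  have hBu : IsUnit B.det := isUnit_iff_ne_zero.2 hdet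
  refine ⟨B⁻¹, ?_, fun l => ?_⟩
  · exact (Matrix.isUnit_nonsing_inv_det B hBu).ne_zero
  · set u' : Fin n → R := fun i => ∑ j, algebraMap k R (B⁻¹ i j) * u j with hu'
    have huu : ∀ i, u i = ∑ j, algebraMap k R (B i j) * u' j := by
      intro i
      have h1 : ∑ j, algebraMap k R (B i j) * u' j =
          ∑ l, algebraMap k R ((B * B⁻¹) i l) * u l := by
        simp only [hu', Finset.mul_sum, Matrix.mul_apply, map_sum, map_mul, Finset.sum_mul]
        rw [Finset.sum_comm]
        refine Finset.sum_congr rfl fun x _ => Finset.sum_congr rfl fun y _ => ?_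
        ring
      rw [h1, Matrix.mul_nonsing_inv _ hBu]
      rw [Finset.sum_eq_single i]
      · rw [Matrix.one_apply_eq, map_one, one_mul]
      · intro j _ hj
        rw [Matrix.one_apply_ne (Ne.symm hj), map_zero, zero_mul]
      · intro hh
        exact absurd (Finset.mem_univ _) hh
    let lin : Fin n → MvPolynomial (Fin n) k := fun i => ∑ j, C (B i j) * X j
    have hlin : ∀ i, (lin i).IsHomogeneous 1 := fun i =>
      IsHomogeneous.sum _ _ _ fun j _ => by
        have := (isHomogeneous_C (Fin n) (B i j)).mul (isHomogeneous_X k j)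
        rwa [zero_add] at this
    have hα' : (aeval lin (α l)).IsHomogeneous (d l) := by
      have := (hα l).aeval lin hlin
      rwa [one_mul] at this
    refine ⟨d l, hd l, aeval lin (α l), hα', ?_, a l, ha l, ?_⟩
    · rw [← eval_single hα' i₀]
      have h1 : eval (Pi.single i₀ (1 : k)) (aeval lin (α l)) = eval β (α l) := by
        have h2 : (eval (Pi.single i₀ (1 : k)) : MvPolynomial (Fin n) k →+* k) (aeval lin (α l)) =
            eval (fun i => eval (Pi.single i₀ (1 : k)) (lin i)) (α l) := by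
          rw [← coe_aeval_eq_eval, ← coe_aeval_eq_eval]
          change ((aeval (Pi.single i₀ (1 : k)) : MvPolynomial (Fin n) k →ₐ[k] k).comp
            (aeval lin)) (α l) = aeval (fun i => eval (Pi.single i₀ (1 : k)) (lin i)) (α l)
          rw [comp_aeval]
          rfl
        rw [h2]
        congr 1
        congr 1
        funext i
        simp only [lin, map_sum, map_mul, eval_C, eval_X]
        rw [Finset.sum_eq_single i₀]
        · rw [Pi.single_eq_same, mul_one, hB', Matrix.updateCol_self]
        · intro j _ hj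
          rw [Pi.single_eq_of_ne hj, mul_zero]
        · intro hh
          exact absurd (Finset.mem_univ _) hh
      rw [h1]
      exact hβα l
    · have h1 : aeval u' (aeval lin (α l)) = aeval u (α l) := by
        change ((aeval u' : MvPolynomial (Fin n) k →ₐ[k] R).comp (aeval lin)) (α l) = _
        rw [comp_aeval]
        congr 1
        congr 1
        funext i
        rw [huu i]
        simp only [lin, map_sum, map_mul, aeval_X, algHom_C]
      rw [h1]
      exact hαm l

end Pool.Agent.TGBC74
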